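import Pool.Agent.Q87.LinearSofic.Average

/-!
# The threshold constant for linear sofic groups is one half
-/

open Module Pool.Agent.Q87.LinearSofic

namespace Pool.Agent.Results.MP_7f7a01_al.ThresholdHalf

universe u

/-- The normalised rank distance on `GL(n, K)`. -/
noncomputable def rankDist {K : Type u} [Field K] {n : ℕ} (A B : GL (Fin n) K) : ℝ :=
  ((A.val - B.val).rank : ℝ) / n

/-- `ε`-approximable groups over the field `K`. -/
def Approximable (K : Type u) [Field K] (G : Type) [Group G] (ε : ℝ) : Prop :=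
  ∀ (F : Finset G) (δ : ℝ), 0 < δ → ∃ n : ℕ, 0 < n ∧ ∃ φ : G → GL (Fin n) K,
    (∀ g ∈ F, ∀ h ∈ F, rankDist (φ g * φ h) (φ (g * h)) < δ) ∧
    ∀ g ∈ F, ∀ h ∈ F, g ≠ h → ε - δ < rankDist (φ g) (φ h)

/-- The same notion with linear automorphisms of arbitrary finite-dimensional spaces. -/
def ApproxLin (K : Type u) [Field K] (G : Type) [Group G] (ε : ℝ) : Prop :=
  ∀ (F : Finset G) (δ : ℝ), 0 < δ → ∃ (V : Type u) (_ : AddCommGroup V) (_ : Module K V)
    (_ : FiniteDimensional K V) (φ : G → V ≃ₗ[K] V), 0 < finrank K V ∧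
    (∀ g ∈ F, ∀ h ∈ F, dst (φ g * φ h).toLinearMap (φ (g * h)).toLinearMap < δ) ∧
    ∀ g ∈ F, ∀ h ∈ F, g ≠ h → ε - δ < dst (φ g).toLinearMap (φ h).toLinearMap

section
variable {K : Type u} [Field K]

/-- Matrices and linear automorphisms. -/
noncomputable def toEquiv (n : ℕ) : GL (Fin n) K ≃* ((Fin n → K) ≃ₗ[K] (Fin n → K)) :=
  Matrix.GeneralLinearGroup.toLin.trans
    (LinearMap.GeneralLinearGroup.generalLinearEquiv K (Fin n → K))

lemma toEquiv_toLinearMap {n : ℕ} (A : GL (Fin n) K) :
    (toEquiv n A).toLinearMap = Matrix.toLin' A.val := by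
  ext x
  rfl

lemma dst_toEquiv {n : ℕ} (A B : GL (Fin n) K) :
    dst (toEquiv n A).toLinearMap (toEquiv n B).toLinearMap = rankDist A B := by
  unfold dst rankDist
  rw [toEquiv_toLinearMap, toEquiv_toLinearMap, ← map_sub, Module.finrank_fin_fun]
  rfl

lemma rk_conj {V W : Type u} [AddCommGroup V] [Module K V] [AddCommGroup W] [Module K W]
    [FiniteDimensional K V] [FiniteDimensional K W] (e : V ≃ₗ[K] W) (f : V →ₗ[K] V) :
    rk (e.toLinearMap ∘ₗ f ∘ₗ e.symm.toLinearMap) = rk f := by
  apply le_antisymm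
  · exact (rk_comp_right _ _).trans (rk_comp_left _ _)
  · have : f = e.symm.toLinearMap ∘ₗ (e.toLinearMap ∘ₗ f ∘ₗ e.symm.toLinearMap) ∘ₗ
        e.toLinearMap := by
      ext x; simp
    conv_lhs => rw [this]
    exact (rk_comp_right _ _).trans (rk_comp_left _ _)

lemma approx_iff (G : Type) [Group G] (ε : ℝ) : Approximable K G ε ↔ ApproxLin K G ε := by
  constructor
  · intro h F δ hδ
    obtain ⟨n, hn, φ, h1, h2⟩ := h F δ hδ
    refine ⟨Fin n → K, inferInstance, inferInstance, inferInstance,
      fun g => toEquiv n (φ g), by simpa using hn, ?_, ?_⟩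
    · intro g hg k hk
      have := h1 g hg k hk
      rwa [← dst_toEquiv, map_mul] at this
    · intro g hg k hk hne
      have := h2 g hg k hk hne
      rwa [← dst_toEquiv] at this
  · intro h F δ hδ
    obtain ⟨V, i1, i2, i3, φ, hV, h1, h2⟩ := h F δ hδ
    let e : V ≃ₗ[K] (Fin (finrank K V) → K) := (finBasis K V).equivFun
    let c : (V ≃ₗ[K] V) → ((Fin (finrank K V) → K) ≃ₗ[K] (Fin (finrank K V) → K)) :=
      fun A => (e.symm.trans A).trans e
    have hc : ∀ A B, c (A * B) = c A * c B := by
      intro A B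
      apply LinearEquiv.ext
      intro x
      show e (A (B (e.symm x))) = e (A (e.symm (e (B (e.symm x)))))
      rw [e.symm_apply_apply]
    have hd : ∀ A B, dst (c A).toLinearMap (c B).toLinearMap =
        dst A.toLinearMap B.toLinearMap := by
      intro A B
      unfold dst
      rw [Module.finrank_fin_fun, ← rk_conj e (A.toLinearMap - B.toLinearMap)]
      congr 3
      ext x
      simp [c]
    refine ⟨finrank K V, hV, fun g => (toEquiv _).symm (c (φ g)), ?_, ?_⟩
    · intro g hg k hk
      have := h1 g hg k hk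
      rw [← dst_toEquiv, map_mul]
      simp only [MulEquiv.apply_symm_apply]
      rwa [← hc, hd]
    · intro g hg k hk hne
      have := h2 g hg k hk hne
      rw [← dst_toEquiv]
      simp only [MulEquiv.apply_symm_apply]
      rwa [hd]

lemma Approximable.mono {G : Type} [Group G] {ε ε' : ℝ} (h : ε' ≤ ε)
    (hG : Approximable K G ε) : Approximable K G ε' := by
  intro F δ hδ
  obtain ⟨n, hn, φ, h1, h2⟩ := hG F δ hδ
  exact ⟨n, hn, φ, h1, fun g hg k hk hne => by linarith [h2 g hg k hk hne]⟩

/-- Amplification: any positive constant can be improved to one half. -/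
theorem amplify {G : Type} [Group G] {c : ℝ} (hc : 0 < c) (hc1 : c ≤ 1)
    (hG : ApproxLin K G c) : ApproxLin K G (1 / 2) := by
  intro F δ hδ
  obtain ⟨k, hk⟩ := exists_pow_lt_of_lt_one hδ (by linarith : 1 - c / 4 < 1)
  have hk1 : (0 : ℝ) < k + 1 := by positivity
  obtain ⟨V, i1, i2, i3, φ, hV, h1, h2⟩ := hG F (min (δ / (k + 1)) (c / 2))
    (lt_min (by positivity) (by positivity))
  obtain ⟨W, j1, j2, j3, Ψ, hW, hmul, hlip, hexc⟩ := exists_amplify V hV k
  refine ⟨W, j1, j2, j3, fun g => Ψ (φ g), hW, ?_, ?_⟩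
  · intro g hg h hh
    show dst (Ψ (φ g) * Ψ (φ h)).toLinearMap (Ψ (φ (g * h))).toLinearMap < δ
    rw [← hmul]
    have e1 := hlip (φ g * φ h) (φ (g * h))
    have e2 := (h1 g hg h hh).trans_le (min_le_left _ _)
    have e3 : 0 ≤ dst (φ g * φ h).toLinearMap (φ (g * h)).toLinearMap := by
      unfold dst; positivity
    rw [lt_div_iff₀ hk1] at e2
    nlinarith
  · intro g hg h hh hne
    show 1 / 2 - δ < dst (Ψ (φ g)).toLinearMap (Ψ (φ h)).toLinearMap
    have hinv : (Ψ (φ h))⁻¹ * Ψ (φ g) = Ψ ((φ h)⁻¹ * φ g) := by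
      have : Ψ (φ g) = Ψ (φ h) * Ψ ((φ h)⁻¹ * φ g) := by
        rw [← hmul, mul_inv_cancel_left]
      rw [this, inv_mul_cancel_left]
    have e1 := h2 g hg h hh hne
    have e2 : min (δ / (k + 1)) (c / 2) ≤ c / 2 := min_le_right _ _
    rw [dst_mul_left] at e1 ⊢
    rw [hinv]
    generalize (φ h)⁻¹ * φ g = A at *
    have e3 := kap_add_dst hV A.toLinearMap
    have e4 := kap_add_dst hW (Ψ A).toLinearMap
    have e5 := hexc A
    have e6 : kap (Ψ A).toLinearMap - 1 / 2 ≤ exc (Ψ A).toLinearMap := le_max_left _ _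
    have e7 : 0 ≤ kap A.toLinearMap := by unfold kap; positivity
    have e8 : ((1 + kap A.toLinearMap) / 2) ^ k ≤ (1 - c / 4) ^ k := by
      apply pow_le_pow_left₀ (by positivity)
      linarith
    have e9 : 0 ≤ (1 - c / 4) ^ k := pow_nonneg (by linarith) _
    linarith

/-- Finite groups are approximable with some positive constant. -/
lemma finite_approx (G : Type) [Group G] [Fintype G] [Nontrivial G] :
    ApproxLin K G (1 / Fintype.card G) := by
  intro F δ hδ
  let φ : G → (G → K) ≃ₗ[K] (G → K) := fun g => LinearEquiv.funCongrLeft K K (Equiv.mulRight g)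
  have hφ : ∀ g f x, φ g f x = f (x * g) := fun g f x => rfl
  have hmul : ∀ g h, φ g * φ h = φ (g * h) := by
    intro g h
    apply LinearEquiv.ext
    intro f
    funext x
    show f (x * g * h) = f (x * (g * h))
    rw [mul_assoc]
  have hd : finrank K (G → K) = Fintype.card G := Module.finrank_fintype_fun_eq_card K
  refine ⟨G → K, inferInstance, inferInstance, inferInstance, φ, ?_, ?_, ?_⟩
  · rw [hd]; exact Fintype.card_pos
  · intro g _ h _
    rw [hmul]
    unfold dst rk
    rw [sub_self, LinearMap.range_zero, finrank_bot]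
    simpa using hδ
  · intro g _ h _ hne
    have hr : 1 ≤ rk ((φ g).toLinearMap - (φ h).toLinearMap) := by
      rw [Nat.one_le_iff_ne_zero]
      intro h0
      have h1 : LinearMap.range ((φ g).toLinearMap - (φ h).toLinearMap) = ⊥ :=
        Submodule.finrank_eq_zero.1 h0
      rw [LinearMap.range_eq_bot] at h1
      classical
      have h2 := congrFun (congrArg (fun t => t (Pi.single g (1 : K))) h1) 1
      have h3 : φ g (Pi.single g 1) 1 - φ h (Pi.single g 1) 1 = (0 : K) := h2
      rw [hφ, hφ, one_mul, one_mul, Pi.single_eq_same, Pi.single_eq_of_ne (Ne.symm hne)] at h3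
      simp at h3
    unfold dst
    rw [hd]
    have hc : (0 : ℝ) < Fintype.card G := by exact_mod_cast Fintype.card_pos
    have hr' : (1 : ℝ) ≤ rk ((φ g).toLinearMap - (φ h).toLinearMap) := by exact_mod_cast hr
    have : (1 : ℝ) / Fintype.card G ≤
        (rk ((φ g).toLinearMap - (φ h).toLinearMap) : ℝ) / Fintype.card G :=
      div_le_div_of_nonneg_right hr' hc.le
    linarith

/-- Large elementary abelian 2-groups are not approximable beyond one half. -/
lemma not_approx {ε : ℝ} (hε : ε < 1) (G : Type) [Group G] [Fintype G]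
    (hG : ∀ g : G, g * g = 1) (hN : 3 < Fintype.card G * (2 * ε - 1)) (h : ApproxLin K G ε) : False := by
  classical
  set N : ℝ := (Fintype.card G : ℝ) with hNdef
  have hN1 : (1 : ℝ) ≤ N := by
    have : 0 < Fintype.card G := Fintype.card_pos
    rw [hNdef]; exact_mod_cast this
  obtain ⟨V, i1, i2, i3, φ, hV, h1, h2⟩ := h Finset.univ (1 / (N ^ 4 + 2 * N)) (by positivity)
  set δ : ℝ := 1 / (N ^ 4 + 2 * N) with hδ
  have hδ0 : 0 < δ := by positivity
  have hδ1 : (N ^ 4 + 2 * N) * δ = 1 := by rw [hδ]; field_simp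
  have hV' : (0 : ℝ) < finrank K V := by exact_mod_cast hV
  obtain ⟨U, u1, u2, u3, u4⟩ := exists_exact φ (δ * finrank K V) (by positivity) (by
    intro g k
    have := h1 g (Finset.mem_univ _) k (Finset.mem_univ _)
    unfold dst at this
    rw [div_lt_iff₀ hV'] at this
    exact this.le)
  have havg := average hG (fun g => (φ g).toLinearMap) _ U rfl u1 u2 u3
  have hterm : ∀ g, g ≠ 1 → (finrank K (U ⊓ LinearMap.ker ((φ g).toLinearMap - 1) :
      Submodule K V) : ℝ) ≤ (1 - (ε - δ)) * finrank K V := by
    intro g hg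
    have e1 := h2 g (Finset.mem_univ _) 1 (Finset.mem_univ _) hg
    unfold dst at e1
    rw [lt_div_iff₀ hV'] at e1
    have e2 := ((φ g).toLinearMap - (φ 1).toLinearMap).finrank_range_add_finrank_ker
    have e3 : (rk ((φ g).toLinearMap - (φ 1).toLinearMap) : ℝ) +
        finrank K (LinearMap.ker ((φ g).toLinearMap - (φ 1).toLinearMap)) = finrank K V := by
      exact_mod_cast e2
    have e4 : finrank K (U ⊓ LinearMap.ker ((φ g).toLinearMap - 1) : Submodule K V) ≤
        finrank K (LinearMap.ker ((φ g).toLinearMap - (φ 1).toLinearMap)) := by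
      apply Submodule.finrank_mono
      rintro v ⟨hv, hv'⟩
      have hv'' : φ g v - v = 0 := hv'
      show φ g v - φ 1 v = 0
      rw [u3 v hv, hv'']
    have e4' : (finrank K (U ⊓ LinearMap.ker ((φ g).toLinearMap - 1) : Submodule K V) : ℝ) ≤
        finrank K (LinearMap.ker ((φ g).toLinearMap - (φ 1).toLinearMap)) := by
      exact_mod_cast e4
    linarith
  have hUV : (finrank K U : ℝ) ≤ finrank K V := by exact_mod_cast Submodule.finrank_le U
  have hone : (finrank K (U ⊓ LinearMap.ker ((φ 1).toLinearMap - 1) : Submodule K V) : ℝ) ≤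
      finrank K V := by
    exact_mod_cast Submodule.finrank_le _
  have hsum : (∑ g, (finrank K (U ⊓ LinearMap.ker ((φ g).toLinearMap - 1) :
      Submodule K V) : ℝ)) ≤ finrank K V + (N - 1) * ((1 - (ε - δ)) * finrank K V) := by
    rw [← Finset.add_sum_erase Finset.univ _ (Finset.mem_univ (1 : G))]
    refine add_le_add hone ?_
    have hcard : ((Finset.univ.erase (1 : G)).card : ℝ) = N - 1 := by
      rw [Finset.card_erase_of_mem (Finset.mem_univ _), Finset.card_univ,
        Nat.cast_sub Fintype.card_pos]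
      simp [hNdef]
    rw [← hcard, ← nsmul_eq_mul]
    apply Finset.sum_le_card_nsmul
    intro g hg
    exact hterm g (Finset.ne_of_mem_erase hg)
  have havg' : N * finrank K U ≤ 2 * ∑ g, (finrank K (U ⊓ LinearMap.ker
      ((φ g).toLinearMap - 1) : Submodule K V) : ℝ) := by
    rw [hNdef]
    exact_mod_cast havg
  have k1 : N * finrank K V ≤ N * finrank K U + N * (N ^ 3 * (δ * finrank K V)) := by
    have := mul_le_mul_of_nonneg_left u4 (by linarith : (0 : ℝ) ≤ N)
    rw [mul_add] at this
    exact this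
  have hr : 0 ≤ 1 - (ε - δ) := by linarith
  have k2 : N * finrank K V ≤ 2 * (finrank K V + N * ((1 - (ε - δ)) * finrank K V)) +
      N * (N ^ 3 * (δ * finrank K V)) := by
    have : (N - 1) * ((1 - (ε - δ)) * finrank K V) ≤ N * ((1 - (ε - δ)) * finrank K V) := by
      apply mul_le_mul_of_nonneg_right (by linarith) (by positivity)
    linarith
  have k3 : N ≤ 2 * (1 + N * (1 - (ε - δ))) + N * (N ^ 3 * δ) := by
    have : N * finrank K V ≤ (2 * (1 + N * (1 - (ε - δ))) + N * (N ^ 3 * δ)) *
        finrank K V := by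
      refine k2.trans (le_of_eq ?_)
      ring
    exact le_of_mul_le_mul_right this hV'
  nlinarith [k3, hδ1, hN]

end

/-- For every field and every `ε` with `1/4 < ε < 1`: the class of `ε`-approximable groups is the
class of linear sofic groups if and only if `ε ≤ 1/2`. -/
theorem result (K : Type u) [Field K] (ε : ℝ) (h1 : 1 / 4 < ε) (h2 : ε < 1) :
    (∀ (G : Type) [Group G] [Countable G], Approximable K G ε ↔ Approximable K G (1 / 4)) ↔
      ε ≤ 1 / 2 := by
  constructor
  · intro h
    by_contra hε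
    push Not at hε
    obtain ⟨k, hk⟩ := exists_nat_gt (3 / (2 * ε - 1))
    let G := Multiplicative (Fin (k + 1) → ZMod 2)
    have hG : ∀ g : G, g * g = 1 := by
      intro g
      apply Multiplicative.toAdd.injective
      funext i
      show (Multiplicative.toAdd g) i + (Multiplicative.toAdd g) i = 0
      exact CharTwo.add_self_eq_zero _
    have hcard : Fintype.card G = 2 ^ (k + 1) := by
      have : Fintype.card (Fin (k + 1) → ZMod 2) = 2 ^ (k + 1) := by simp
      rw [← this]
      exact Fintype.card_congr Multiplicative.toAdd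
    have hfin := finite_approx (K := K) G
    have hpos : (0 : ℝ) < 1 / Fintype.card G := by
      have : (0 : ℝ) < Fintype.card G := by exact_mod_cast Fintype.card_pos
      positivity
    have hle : (1 : ℝ) / Fintype.card G ≤ 1 := by
      have : (1 : ℝ) ≤ Fintype.card G := by exact_mod_cast Fintype.card_pos
      rw [div_le_one (by linarith)]
      exact this
    have hamp := amplify hpos hle hfin
    have hq : Approximable K G (1 / 4) :=
      ((approx_iff G _).2 hamp).mono (by norm_num)
    have := (h G).2 hq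
    refine not_approx h2 G hG ?_ ((approx_iff G _).1 this)
    rw [hcard]
    have hk' : (k : ℝ) ≤ 2 ^ (k + 1) := by
      have : k < 2 ^ (k + 1) := (Nat.lt_two_pow_self).trans (Nat.pow_lt_pow_right (by norm_num) (by omega))
      exact_mod_cast this.le
    push_cast
    rw [div_lt_iff₀ (by linarith)] at hk
    nlinarith
  · intro hε G _ _
    constructor
    · exact Approximable.mono h1.le
    · intro h
      exact ((approx_iff G _).2 (amplify (by norm_num) (by norm_num)
        ((approx_iff G _).1 h))).mono hε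

end Pool.Agent.Results.MP_7f7a01_al.ThresholdHalf
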